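import Mathlib
import Pool.Agent.Q97.Cos.Main

/-!
# A faithful irreducible coset space with infinitely many minimal closed normal subgroups

The group consists of the families of elements of `PSL(2, ℚ)` indexed by the places of `ℚ` that are
constant outside a finite set, the topology is induced by the group of points over the adeles, and
`H` is the diagonal subgroup.
-/

set_option autoImplicit false

namespace Pool.Agent.Results.MP_e825aa_al.InfinitelyManyMinimal

/-- `G ⧸ H` is an irreducible coset space: `H` is maximal among the proper closed subgroups of the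
topological group `G` -/
def IsIrreducible {G : Type} [Group G] [TopologicalSpace G] (H : Subgroup G) : Prop :=
  IsClosed (H : Set G) ∧ H ≠ ⊤ ∧
    ∀ K : Subgroup G, IsClosed (K : Set G) → H ≤ K → K = H ∨ K = ⊤

/-- `G ⧸ H` is faithful: the intersection of the conjugates of `H` is trivial -/
def IsFaithful {G : Type} [Group G] (H : Subgroup G) : Prop :=
  ∀ x : G, (∀ g : G, g⁻¹ * x * g ∈ H) → x = 1

/-- the set `𝓜_G` of the minimal nontrivial closed normal subgroups of `G` -/
def minimalClosedNormal (G : Type) [Group G] [TopologicalSpace G] : Set (Subgroup G) :=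
  {M | IsClosed (M : Set G) ∧ M.Normal ∧ M ≠ ⊥ ∧
    ∀ N : Subgroup G, IsClosed (N : Set G) → N.Normal → N ≤ M → N = ⊥ ∨ N = M}

theorem result : ∃ (G : Type) (_ : Group G) (_ : TopologicalSpace G) (_ : IsTopologicalGroup G)
    (_ : T2Space G) (H : Subgroup G),
    IsIrreducible H ∧ IsFaithful H ∧ (minimalClosedNormal G).Infinite := by
  refine ⟨Q97.Cos.G, inferInstance, Q97.Cos.top, inferInstance, inferInstance, Q97.Cos.H, ?_, ?_, ?_⟩
  · refine ⟨Q97.Cos.H_closed, Q97.Cos.H_ne_top, fun K hK hH => ?_⟩
    by_cases h : K = Q97.Cos.H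
    · exact Or.inl h
    · exact Or.inr (Q97.Cos.maximal hK hH h)
  · exact fun x hx => Q97.Cos.faithful hx
  · refine Set.infinite_of_injective_forall_mem Q97.Cos.M_inj fun i => ?_
    refine ⟨Q97.Cos.M_closed i, Q97.Cos.M_normal i, Q97.Cos.M_ne_bot i, fun N _ hN hle => ?_⟩
    by_cases h : N = ⊥
    · exact Or.inl h
    · exact Or.inr (Q97.Cos.M_min hN hle h)

end Pool.Agent.Results.MP_e825aa_al.InfinitelyManyMinimal
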